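import Pool.Agent.Helper74.CO.Goals

/-!
# Project CO (MP_c5396e_co), packet CO-TRI
-/

set_option autoImplicit false

namespace Pool.Agent.Helper60.CO

open Finset Pool.Agent.Helper74.CO

section

variable {F : Type} [Field F] [Fintype F] [DecidableEq F]

omit [DecidableEq F] in
theorem mc_star (χ : MulChar F ℂ) (a : F) : (starRingEnd ℂ) (χ a) = χ⁻¹ a :=
  MulChar.star_apply' χ a

omit [DecidableEq F] in
theorem mc_norm_one (χ : MulChar F ℂ) {a : F} (ha : a ≠ 0) : ‖χ a‖ = 1 := by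
  have h1 : χ a ^ (Fintype.card F - 1) = 1 := by
    rw [← map_pow, FiniteField.pow_card_sub_one_eq_one a ha, map_one]
  have h2 : Fintype.card F - 1 ≠ 0 := by
    have := Fintype.one_lt_card (α := F)
    omega
  exact Complex.norm_eq_one_of_pow_eq_one h1 h2

theorem mc_norm_le (χ : MulChar F ℂ) (a : F) : ‖χ a‖ ≤ 1 := by
  by_cases ha : a = 0
  · subst ha
    rw [MulChar.map_zero]
    simp
  · exact (mc_norm_one χ ha).le

omit [Fintype F] [DecidableEq F] in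
theorem mc_mul_inv (χ : MulChar F ℂ) {a : F} (ha : a ≠ 0) : χ a * χ⁻¹ a = 1 := by
  rw [MulChar.inv_apply', ← map_mul, mul_inv_cancel₀ ha, map_one]

/-- the correlation sum in the new variable -/
theorem corr (χ₂ χ₃ : MulChar F ℂ) (s r : F) (hs1 : s ≠ 1) (hr0 : r ≠ 0) (hr1 : r ≠ 1)
    (hrs' : 1 - r * s ≠ 0) :
    ‖∑ x ∈ univ.erase (1 / r),
      (χ₂ (x - s) * χ₃ (x - 1)) * (starRingEnd ℂ) (χ₂ (r * x - s) * χ₃ (r * x - 1))‖ =
    ‖∑ w ∈ univ.erase (1 : F), χ₃ w * χ₂ (w - r * (1 - s) / (1 - r * s)) *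
      χ₂⁻¹ (w - (r - s) / (1 - s))‖ := by
  have h1s : (1 : F) - s ≠ 0 := sub_ne_zero.2 hs1.symm
  have h1r : (1 : F) - r ≠ 0 := sub_ne_zero.2 hr1.symm
  have hc1 : (1 - r) / (1 - r * s) ≠ 0 := div_ne_zero h1r hrs'
  have hc2 : (1 - r) / (r * (1 - s)) ≠ 0 := div_ne_zero h1r (mul_ne_zero hr0 h1s)
  have hsum : ∑ w ∈ univ.erase (1 : F), χ₃ w * χ₂ (w - r * (1 - s) / (1 - r * s)) *
      χ₂⁻¹ (w - (r - s) / (1 - s)) =
      (χ₃ r * χ₂ ((1 - r) / (1 - r * s)) * χ₂⁻¹ ((1 - r) / (r * (1 - s)))) *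
      ∑ x ∈ univ.erase (1 / r),
      (χ₂ (x - s) * χ₃ (x - 1)) * (starRingEnd ℂ) (χ₂ (r * x - s) * χ₃ (r * x - 1)) := by
    rw [Finset.mul_sum]
    refine Finset.sum_nbij' (fun w => (w / r - 1) / (w - 1)) (fun x => (x - 1) / (x - 1 / r))
      ?_ ?_ ?_ ?_ ?_
    · intro w hw
      have hw1 : w ≠ 1 := (mem_erase.1 hw).1
      have hw1' : w - 1 ≠ 0 := sub_ne_zero.2 hw1
      refine mem_erase.2 ⟨fun h => hr1 ?_, mem_univ _⟩
      rw [div_eq_div_iff hw1' hr0] at h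
      have : w - r = w - 1 := by
        have e : (w / r - 1) * r = w - r := by field_simp
        rw [← e, h, one_mul]
      linear_combination -this
    · intro x hx
      have hx1 : x ≠ 1 / r := (mem_erase.1 hx).1
      have hx1' : x - 1 / r ≠ 0 := sub_ne_zero.2 hx1
      refine mem_erase.2 ⟨fun h => hr1 ?_, mem_univ _⟩
      rw [div_eq_one_iff_eq hx1'] at h
      have h2 : (1 : F) = 1 / r := by linear_combination -h
      rw [eq_div_iff hr0, one_mul] at h2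
      exact h2
    · intro w hw
      have hw1' : w - 1 ≠ 0 := sub_ne_zero.2 (mem_erase.1 hw).1
      have e1 : (w / r - 1) / (w - 1) - 1 = (w * (1 - r)) / (r * (w - 1)) := by
        field_simp
        ring
      have e2 : (w / r - 1) / (w - 1) - 1 / r = (1 - r) / (r * (w - 1)) := by
        field_simp
        ring
      show ((w / r - 1) / (w - 1) - 1) / ((w / r - 1) / (w - 1) - 1 / r) = w
      rw [e1, e2]
      field_simp
    · intro x hx
      have hx1' : x - 1 / r ≠ 0 := sub_ne_zero.2 (mem_erase.1 hx).1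
      have e0 : x - 1 / r = (x * r - 1) / r := by field_simp
      have hx2 : x * r - 1 ≠ 0 := by
        intro h
        rw [e0, h, zero_div] at hx1'
        exact hx1' rfl
      have e1 : (x - 1) / ((x * r - 1) / r) / r - 1 = (x * (1 - r)) / (x * r - 1) := by
        field_simp
        ring
      have e2 : (x - 1) / ((x * r - 1) / r) - 1 = (1 - r) / (x * r - 1) := by
        field_simp
        ring
      show ((x - 1) / (x - 1 / r) / r - 1) / ((x - 1) / (x - 1 / r) - 1) = x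
      rw [e0, e1, e2]
      field_simp
    · intro w hw
      have hw1' : w - 1 ≠ 0 := sub_ne_zero.2 (mem_erase.1 hw).1
      -- values
      have v1 : (w / r - 1) / (w - 1) - s = (w - r * (1 - s) / (1 - r * s)) *
          ((1 - r * s) / r * (w - 1)⁻¹) := by
        field_simp
        ring
      have v2 : (w / r - 1) / (w - 1) - 1 = w * ((1 - r) / r * (w - 1)⁻¹) := by
        field_simp
        ring
      have v3 : r * ((w / r - 1) / (w - 1)) - s = (w - (r - s) / (1 - s)) *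
          ((1 - s) * (w - 1)⁻¹) := by
        field_simp
        ring
      have v4 : r * ((w / r - 1) / (w - 1)) - 1 = (1 - r) * (w - 1)⁻¹ := by
        field_simp
        ring
      show _ = _ * ((χ₂ ((w / r - 1) / (w - 1) - s) * χ₃ ((w / r - 1) / (w - 1) - 1)) *
        (starRingEnd ℂ) (χ₂ (r * ((w / r - 1) / (w - 1)) - s) *
          χ₃ (r * ((w / r - 1) / (w - 1)) - 1)))
      rw [map_mul (starRingEnd ℂ), mc_star, mc_star, v1, v2, v3, v4]
      have a1 : χ₃ r * (χ₃ ((1 - r) / r * (w - 1)⁻¹) * χ₃⁻¹ ((1 - r) * (w - 1)⁻¹)) = 1 := by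
        have e : χ₃ r * χ₃ ((1 - r) / r * (w - 1)⁻¹) = χ₃ ((1 - r) * (w - 1)⁻¹) := by
          rw [← map_mul]
          congr 1
          field_simp
        rw [← mul_assoc, e]
        exact mc_mul_inv _ (mul_ne_zero h1r (inv_ne_zero hw1'))
      have a2 : χ₂ ((1 - r) / (1 - r * s)) * χ₂⁻¹ ((1 - r) / (r * (1 - s))) *
          (χ₂ ((1 - r * s) / r * (w - 1)⁻¹) * χ₂⁻¹ ((1 - s) * (w - 1)⁻¹)) = 1 := by
        have e1 : χ₂ ((1 - r) / (1 - r * s)) * χ₂ ((1 - r * s) / r * (w - 1)⁻¹) =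
            χ₂ ((1 - r) / r * (w - 1)⁻¹) := by
          rw [← map_mul]
          congr 1
          field_simp
        have e2 : χ₂⁻¹ ((1 - r) / (r * (1 - s))) * χ₂⁻¹ ((1 - s) * (w - 1)⁻¹) =
            χ₂⁻¹ ((1 - r) / r * (w - 1)⁻¹) := by
          rw [← map_mul]
          congr 1
          field_simp
        calc χ₂ ((1 - r) / (1 - r * s)) * χ₂⁻¹ ((1 - r) / (r * (1 - s))) *
              (χ₂ ((1 - r * s) / r * (w - 1)⁻¹) * χ₂⁻¹ ((1 - s) * (w - 1)⁻¹))
            = (χ₂ ((1 - r) / (1 - r * s)) * χ₂ ((1 - r * s) / r * (w - 1)⁻¹)) *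
              (χ₂⁻¹ ((1 - r) / (r * (1 - s))) * χ₂⁻¹ ((1 - s) * (w - 1)⁻¹)) := by ring
          _ = 1 := by
              rw [e1, e2]
              exact mc_mul_inv _ (mul_ne_zero (div_ne_zero h1r hr0) (inv_ne_zero hw1'))
      rw [map_mul χ₂ (w - r * (1 - s) / (1 - r * s)), map_mul χ₃ w,
        map_mul χ₂⁻¹ (w - (r - s) / (1 - s))]
      calc χ₃ w * χ₂ (w - r * (1 - s) / (1 - r * s)) * χ₂⁻¹ (w - (r - s) / (1 - s))
          = (χ₃ w * χ₂ (w - r * (1 - s) / (1 - r * s)) * χ₂⁻¹ (w - (r - s) / (1 - s))) *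
            (χ₃ r * (χ₃ ((1 - r) / r * (w - 1)⁻¹) * χ₃⁻¹ ((1 - r) * (w - 1)⁻¹))) *
            (χ₂ ((1 - r) / (1 - r * s)) * χ₂⁻¹ ((1 - r) / (r * (1 - s))) *
          (χ₂ ((1 - r * s) / r * (w - 1)⁻¹) * χ₂⁻¹ ((1 - s) * (w - 1)⁻¹))) := by
            rw [a1, a2, mul_one, mul_one]
        _ = _ := by ring
  rw [hsum, norm_mul, norm_mul, norm_mul, mc_norm_one _ hr0, mc_norm_one _ hc1,
    mc_norm_one _ hc2]
  ring

omit [DecidableEq F] in
/-- scaling of the variable -/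
theorem scal (χ₂ χ₃ : MulChar F ℂ) (w₁ w₂ z : F) (h2 : w₂ ≠ 0) (hz : w₁ = w₂ * z) :
    ‖∑ w, χ₃ w * χ₂ (w - w₁) * χ₂⁻¹ (w - w₂)‖ =
      ‖∑ w, (χ₃ w * χ₂⁻¹ (w - 1)) * χ₂ (w - z)‖ := by
  have hb : Function.Bijective (fun w : F => w₂ * w) := by
    refine (Finite.injective_iff_bijective).1 fun w w' h => ?_
    exact mul_left_cancel₀ h2 h
  rw [← hb.sum_comp]
  have hterm : ∀ w : F, χ₃ (w₂ * w) * χ₂ (w₂ * w - w₁) * χ₂⁻¹ (w₂ * w - w₂) =
      (χ₃ w₂ * χ₂ w₂ * χ₂⁻¹ w₂) * ((χ₃ w * χ₂⁻¹ (w - 1)) * χ₂ (w - z)) := by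
    intro w
    have e1 : w₂ * w - w₁ = w₂ * (w - z) := by rw [hz]; ring
    have e2 : w₂ * w - w₂ = w₂ * (w - 1) := by ring
    rw [e1, e2, map_mul χ₃, map_mul χ₂, map_mul χ₂⁻¹]
    ring
  rw [Finset.sum_congr rfl fun w _ => hterm w, ← Finset.mul_sum, norm_mul, norm_mul, norm_mul,
    mc_norm_one _ h2, mc_norm_one _ h2, mc_norm_one _ h2]
  ring

end

theorem t_TRI : ∀ (F : Type) [Field F] [Fintype F] [DecidableEq F],
    GEN F → L2M F → TRI F := by
  intro F _ _ _ hG hL χ₁ χ₂ χ₃ s hχ₂ _ hs0 hs1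
  have h1s : (1 : F) - s ≠ 0 := sub_ne_zero.2 hs1.symm
  refine hG χ₁ (fun x => χ₂ (x - s) * χ₃ (x - 1)) {1, s, s⁻¹}
    (fun r => r * (1 - s) ^ 2 / ((1 - r * s) * (r - s)))
    (fun z => ‖∑ w, (χ₃ w * χ₂⁻¹ (w - 1)) * χ₂ (w - z)‖) ?_ ?_ ?_ ?_ ?_ ?_
  · intro x
    rw [norm_mul]
    exact mul_le_one₀ (mc_norm_le _ _) (norm_nonneg _) (mc_norm_le _ _)
  · exact card_le_three
  · intro z
    exact norm_nonneg _
  · refine hL χ₂ (fun w => χ₃ w * χ₂⁻¹ (w - 1)) hχ₂ fun w => ?_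
    rw [norm_mul]
    exact mul_le_one₀ (mc_norm_le _ _) (norm_nonneg _) (mc_norm_le _ _)
  · intro z
    by_contra hcon
    rw [not_le, Finset.two_lt_card] at hcon
    obtain ⟨a, ha, b, hb, c, hc, hab, hac, hbc⟩ := hcon
    have key : ∀ r ∈ (univ.erase (0 : F)).filter
        (fun r => r ∉ ({1, s, s⁻¹} : Finset F) ∧
          r * (1 - s) ^ 2 / ((1 - r * s) * (r - s)) = z),
        z * ((1 - r * s) * (r - s)) = r * (1 - s) ^ 2 ∧ r ≠ 0 := by
      intro r hr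
      simp only [mem_filter, mem_erase, mem_univ, and_true, mem_insert, mem_singleton,
        not_or] at hr
      obtain ⟨hr0, ⟨-, hrs, hrs'⟩, hrz⟩ := hr
      have h1 : (1 : F) - r * s ≠ 0 := by
        intro h
        exact hrs' (eq_inv_of_mul_eq_one_left (by linear_combination -h))
      have h2 : r - s ≠ 0 := sub_ne_zero.2 hrs
      rw [div_eq_iff (mul_ne_zero h1 h2)] at hrz
      exact ⟨hrz.symm, hr0⟩
    obtain ⟨h1, ha0⟩ := key a ha
    obtain ⟨h2, -⟩ := key b hb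
    obtain ⟨h3, -⟩ := key c hc
    have hz : z ≠ 0 := by
      intro h
      rw [h, zero_mul] at h1
      exact mul_ne_zero ha0 (pow_ne_zero 2 h1s) h1.symm
    have e1 : z * s * (a + b) = z * (1 + s ^ 2) - (1 - s) ^ 2 := by
      refine mul_left_cancel₀ (sub_ne_zero.2 hab) ?_
      linear_combination h2 - h1
    have e2 : z * s * (a + c) = z * (1 + s ^ 2) - (1 - s) ^ 2 := by
      refine mul_left_cancel₀ (sub_ne_zero.2 hac) ?_
      linear_combination h3 - h1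
    refine hbc (sub_eq_zero.1 ?_)
    refine mul_left_cancel₀ (mul_ne_zero hz hs0) ?_
    linear_combination e1 - e2
  · intro r hr0 hr
    simp only [mem_insert, mem_singleton, not_or] at hr
    obtain ⟨hr1, hrs, hrs'⟩ := hr
    have h1 : (1 : F) - r * s ≠ 0 := by
      intro h
      exact hrs' (eq_inv_of_mul_eq_one_left (by linear_combination -h))
    have h2 : (r - s) / (1 - s) ≠ 0 := div_ne_zero (sub_ne_zero.2 hrs) h1s
    have hcorr := corr χ₂ χ₃ s r hs1 hr0 hr1 h1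
    have hsc := scal χ₂ χ₃ (r * (1 - s) / (1 - r * s)) ((r - s) / (1 - s))
      (r * (1 - s) ^ 2 / ((1 - r * s) * (r - s))) h2 (by
        have : r - s ≠ 0 := sub_ne_zero.2 hrs
        field_simp)
    set g : F → ℂ := fun x => (χ₂ (x - s) * χ₃ (x - 1)) *
      (starRingEnd ℂ) (χ₂ (r * x - s) * χ₃ (r * x - 1)) with hg
    set G : F → ℂ := fun w => χ₃ w * χ₂ (w - r * (1 - s) / (1 - r * s)) *
      χ₂⁻¹ (w - (r - s) / (1 - s)) with hGdef
    have hg1 : g (1 / r) = 0 := by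
      show (χ₂ (1 / r - s) * χ₃ (1 / r - 1)) *
        (starRingEnd ℂ) (χ₂ (r * (1 / r) - s) * χ₃ (r * (1 / r) - 1)) = 0
      have : r * (1 / r) - 1 = 0 := by field_simp; ring
      rw [this, MulChar.map_zero]
      simp
    have hgn : ∀ x, ‖g x‖ ≤ 1 := by
      intro x
      show ‖(χ₂ (x - s) * χ₃ (x - 1)) *
        (starRingEnd ℂ) (χ₂ (r * x - s) * χ₃ (r * x - 1))‖ ≤ 1
      rw [norm_mul, RCLike.norm_conj, norm_mul, norm_mul]
      exact mul_le_one₀ (mul_le_one₀ (mc_norm_le _ _) (norm_nonneg _) (mc_norm_le _ _))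
        (by positivity) (mul_le_one₀ (mc_norm_le _ _) (norm_nonneg _) (mc_norm_le _ _))
    have hGn : ∀ x, ‖G x‖ ≤ 1 := by
      intro x
      show ‖χ₃ x * χ₂ (x - r * (1 - s) / (1 - r * s)) * χ₂⁻¹ (x - (r - s) / (1 - s))‖ ≤ 1
      rw [norm_mul, norm_mul]
      exact mul_le_one₀ (mul_le_one₀ (mc_norm_le _ _) (norm_nonneg _) (mc_norm_le _ _))
        (norm_nonneg _) (mc_norm_le _ _)
    have s1 : ∑ x ∈ univ.erase (0 : F), g x = ∑ x, g x - g 0 := by
      rw [← Finset.sum_erase_add univ g (mem_univ (0 : F))]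
      ring
    have s2 : ∑ x, g x = ∑ x ∈ univ.erase (1 / r), g x := by
      rw [← Finset.sum_erase_add univ g (mem_univ (1 / r)), hg1, add_zero]
    have s3 : ∑ w ∈ univ.erase (1 : F), G w = ∑ w, G w - G 1 := by
      rw [← Finset.sum_erase_add univ G (mem_univ (1 : F))]
      ring
    have n1 : ‖∑ x ∈ univ.erase (0 : F), g x‖ ≤ ‖∑ x, g x‖ + 1 := by
      rw [s1]
      exact (norm_sub_le _ _).trans (add_le_add le_rfl (hgn 0))
    have n2 : ‖∑ w ∈ univ.erase (1 : F), G w‖ ≤ ‖∑ w, G w‖ + 1 := by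
      rw [s3]
      exact (norm_sub_le _ _).trans (add_le_add le_rfl (hGn 1))
    have n3 : ‖∑ x, g x‖ = ‖∑ w ∈ univ.erase (1 : F), G w‖ := by
      rw [s2]
      exact hcorr
    have n4 : ‖∑ w, G w‖ = ‖∑ w, (χ₃ w * χ₂⁻¹ (w - 1)) *
        χ₂ (w - r * (1 - s) ^ 2 / ((1 - r * s) * (r - s)))‖ := hsc
    show ‖∑ x ∈ univ.erase (0 : F), g x‖ ≤ ‖∑ w, (χ₃ w * χ₂⁻¹ (w - 1)) *
        χ₂ (w - r * (1 - s) ^ 2 / ((1 - r * s) * (r - s)))‖ + 2
    rw [← n4]
    linarith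

end Pool.Agent.Helper60.CO
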